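import Pool.Agent.H65.CRG.TN
import Pool.Agent.H91.CRZ.B

/-!
Board crg_modules, row B: the mollified second moment with shifts, general degree.
-/

set_option autoImplicit false

open NumberField NumberField.InfinitePlace Complex Filter Topology MeasureTheory

namespace Pool.Agent.H40.CRG

open Pool.Agent.H28.RC Pool.Agent.H25.HK Pool.Agent.H37.CV
open Pool.Agent.H65.CRZ
open Pool.Agent.H65.CRG

/-- the factor of the dual sum is bounded -/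
theorem norm_Xn_le (h5 : Pool.Agent.H65.CRG.T_G3) (n : ℕ) (c C₀ : ℝ) (hc : 0 < c)
    (hC₀ : 0 < C₀) :
    ∃ C B : ℝ, 0 < C ∧ 0 ≤ B ∧ ∃ q₀ : ℕ, ∀ q : ℕ, q₀ ≤ q → ∀ (α β : ℂ) (u : ℝ),
      ‖α‖ ≤ C₀ / Real.log q → ‖β‖ ≤ C₀ / Real.log q →
      ‖Xn n (c * (q : ℝ) ^ n) (1 / 2 + α + u * I) (1 / 2 + β - u * I)‖ ≤ C * (1 + |u|) ^ B := by
  obtain ⟨C, B, hC, hB, hG⟩ := h5 n
  have h1 : Tendsto (fun q : ℕ => Real.log (q : ℝ)) atTop atTop :=
    Real.tendsto_log_atTop.comp tendsto_natCast_atTop_atTop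
  obtain ⟨q₁, hq1⟩ := eventually_atTop.1 (h1.eventually_ge_atTop
    (max 1 (max (16 * C₀) |Real.log c|)))
  refine ⟨Real.exp (4 * (n + 1) * C₀) * (1 + C), B, by positivity, hB, max q₁ 1,
    fun q hq α β u hα hβ => ?_⟩
  have h2 := hq1 q ((le_max_left _ _).trans hq)
  have hl1 : 1 ≤ Real.log q := (le_max_left _ _).trans h2
  have hl2 : 16 * C₀ ≤ Real.log q := (le_max_left _ _).trans ((le_max_right _ _).trans h2)
  have hl3 : |Real.log c| ≤ Real.log q := (le_max_right _ _).trans ((le_max_right _ _).trans h2)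
  have hl0 : 0 < Real.log q := by linarith
  have hq0 : (0 : ℝ) < q := by
    have : 1 ≤ q := (le_max_right _ _).trans hq
    exact_mod_cast this
  have hs : C₀ / Real.log q ≤ 1 / 16 := by
    rw [div_le_iff₀ hl0]
    linarith
  have hg := hG α β u (hα.trans hs) (hβ.trans hs)
  unfold Xn
  have hqn : (0 : ℝ) < (q : ℝ) ^ n := pow_pos hq0 n
  have hA0 : 0 < c * (q : ℝ) ^ n := mul_pos hc hqn
  have hu : 1 ≤ (1 + |u|) ^ B := Real.one_le_rpow (by linarith [abs_nonneg u]) hB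
  have e1 : (2 - 2 * ((1 / 2 + α + u * I) + (1 / 2 + β - u * I)) : ℂ) = -(2 * (α + β)) := by ring
  rw [norm_mul, e1]
  have e2 : ‖((c * (q : ℝ) ^ n : ℝ) : ℂ) ^ (-(2 * (α + β)))‖ ≤ Real.exp (4 * (n + 1) * C₀) := by
    rw [Complex.norm_cpow_eq_rpow_re_of_pos hA0, Real.rpow_def_of_pos hA0]
    refine Real.exp_le_exp.2 ?_
    have h3 : |Real.log (c * (q : ℝ) ^ n)| ≤ (n + 1) * Real.log q := by
      rw [Real.log_mul hc.ne' hqn.ne', Real.log_pow]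
      refine (abs_add_le _ _).trans ?_
      rw [abs_of_nonneg (by positivity : (0 : ℝ) ≤ n * Real.log q)]
      linarith
    have h4 : |(-(2 * (α + β))).re| ≤ 4 * C₀ / Real.log q := by
      refine (Complex.abs_re_le_norm _).trans ?_
      rw [norm_neg, norm_mul, Complex.norm_ofNat]
      have := (norm_add_le α β).trans (add_le_add hα hβ)
      calc 2 * ‖α + β‖ ≤ 2 * (C₀ / Real.log q + C₀ / Real.log q) := by gcongr
        _ = _ := by ring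
    calc Real.log (c * (q : ℝ) ^ n) * (-(2 * (α + β))).re
        ≤ |Real.log (c * (q : ℝ) ^ n) * (-(2 * (α + β))).re| := le_abs_self _
      _ = |Real.log (c * (q : ℝ) ^ n)| * |(-(2 * (α + β))).re| := abs_mul _ _
      _ ≤ ((n + 1) * Real.log q) * (4 * C₀ / Real.log q) :=
          mul_le_mul h3 h4 (abs_nonneg _) (by positivity)
      _ = 4 * (n + 1) * C₀ := by field_simp
  have e3 : ‖(Gamma (1 - (1 / 2 + α + u * I)) * Gamma (1 - (1 / 2 + β - u * I)) /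
      (Gamma (1 / 2 + α + u * I) * Gamma (1 / 2 + β - u * I))) ^ n‖ ≤
        (1 + C) * (1 + |u|) ^ B := by
    have h3 := norm_le_norm_add_norm_sub' ((Gamma (1 - (1 / 2 + α + u * I)) *
      Gamma (1 - (1 / 2 + β - u * I)) /
      (Gamma (1 / 2 + α + u * I) * Gamma (1 / 2 + β - u * I))) ^ n) 1
    have h4 : ‖α‖ + ‖β‖ ≤ 1 := by linarith [hα.trans hs, hβ.trans hs]
    have h5 : C * (‖α‖ + ‖β‖) * (1 + |u|) ^ B ≤ C * (1 + |u|) ^ B := by
      have := mul_le_mul_of_nonneg_left h4 hC.le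
      have h6 := mul_le_mul_of_nonneg_right this (zero_le_one.trans hu)
      rwa [mul_one] at h6
    rw [norm_one] at h3
    linarith
  have h3 := mul_le_mul e2 e3 (norm_nonneg _) (Real.exp_pos _).le
  calc _ ≤ Real.exp (4 * (n + 1) * C₀) * ((1 + C) * (1 + |u|) ^ B) := by
        refine le_trans (le_of_eq ?_) h3
        push_cast
        rfl
    _ = _ := by ring

theorem pf_B (h1 : Pool.Agent.H65.CRG.T_AF) (h2 : Pool.Agent.H65.CRG.T_SE)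
    (h3 : Pool.Agent.H65.CRG.T_DI) (h4 : Pool.Agent.H65.CRG.T_BM)
    (h5 : Pool.Agent.H65.CRG.T_G3) (h6 : Pool.Agent.H65.CRG.T_CQ) :
    Pool.Agent.H65.CRG.T_B := by
  intro K _ _ _ ε₁ c C₀ hε hε' hc hC₀
  obtain ⟨E, hE⟩ := a_ZK K
  have hE' : IsE K E := hE
  obtain ⟨hr, -, cK, hcK, hcA⟩ := h6 K
  obtain ⟨B₁, hB₁, hSE⟩ := h2 K ε₁ c C₀ hε hε' hc hC₀
  obtain ⟨B₂, hB₂, hDI⟩ := h3 K E ε₁ c C₀ hE' hε hε' hc hC₀
  obtain ⟨B₃, hB₃, hBM⟩ := h4 K E ε₁ c C₀ hE' hε hε' hc hC₀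
  obtain ⟨CX, BX, hCX, hBX, q₁, hX⟩ := norm_Xn_le h5 (nrComplexPlaces K) cK C₀ hcK hC₀
  refine ⟨B₁ + BX + B₂ + B₃, by positivity, fun η hη => ?_⟩
  set η₁ : ℝ := η / (3 * (1 + CX)) with hη₁
  have hη₁0 : 0 < η₁ := by positivity
  obtain ⟨q₂, hq₂⟩ := hSE η₁ hη₁0
  obtain ⟨q₃, hq₃⟩ := hDI (η / 3) (by positivity)
  obtain ⟨q₄, hq₄⟩ := hBM (η / 3) (by positivity)
  obtain ⟨q₅, hq₅⟩ := Pool.Agent.H91.CRZ.log_large C₀ (1 / 4) (by norm_num)
  refine ⟨max (max q₁ q₂) (max q₃ (max q₄ q₅)), fun q hq hqq α β u hα hβ hαβ => ?_⟩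
  have hqa : q₁ ≤ q := le_trans (le_trans (le_max_left _ _) (le_max_left _ _)) hqq
  have hqb : q₂ ≤ q := le_trans (le_trans (le_max_right _ _) (le_max_left _ _)) hqq
  have hqc : q₃ ≤ q := le_trans (le_trans (le_max_left _ _) (le_max_right _ _)) hqq
  have hqd : q₄ ≤ q := le_trans (le_trans (le_max_left _ _)
    ((le_max_right _ _).trans (le_max_right _ _))) hqq
  have hqe : q₅ ≤ q := le_trans (le_trans (le_max_right _ _)
    ((le_max_right _ _).trans (le_max_right _ _))) hqq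
  obtain ⟨hl1, hl2⟩ := hq₅ q hqe
  have hX' := hX q hqa α β u hα hβ
  rw [← (hcA q hq).1] at hX'
  have hDI' := hq₃ q hq hqc α β u hα hβ hαβ
  have hBM' := hq₄ q hq hqd α β u hα hβ hαβ
  have k1 := hq₂ q hq hqb α β u hα hβ hαβ
  have k2 := hq₂ q hq hqb (-β) (-α) u (by rwa [norm_neg]) (by rwa [norm_neg])
    (by rwa [show -β + -α = -(α + β) by ring, norm_neg])
  rw [show (1 / 2 + -β + u * I : ℂ) = 1 - (1 / 2 + β - u * I) by ring,
    show (1 / 2 + -α - u * I : ℂ) = 1 - (1 / 2 + α + u * I) by ring] at k2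
  set M : ℝ := Mq ε₁ q with hM
  set Q : ℝ := cB K (qi K q) ^ 2 with hQ
  set s₁ : ℂ := 1 / 2 + α + u * I with hs₁
  set s₂ : ℂ := 1 / 2 + β - u * I with hs₂
  have hre1 : s₁.re = 1 / 2 + α.re := by simp [hs₁]
  have hre2 : s₂.re = 1 / 2 + β.re := by simp [hs₂]
  have hαδ : |α.re| ≤ 1 / 4 := (Complex.abs_re_le_norm _).trans (hα.trans hl2)
  have hβδ : |β.re| ≤ 1 / 4 := (Complex.abs_re_le_norm _).trans (hβ.trans hl2)
  have hu0 : 0 ≤ |u| := abs_nonneg u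
  have hu1 : 1 ≤ 1 + |u| := by linarith
  -- the functional equation
  obtain ⟨hfin, -⟩ := a_IE K q hq
  have hterm : ∀ χ ∈ Pr K (qi K q), Zx χ s₁ *
      (starRingEnd ℂ) (Zx χ (1 / 2 + (starRingEnd ℂ) β + u * I)) *
        ((‖pol M (cu K M u) χ.ψ‖ ^ 2 : ℝ) : ℂ) =
      A2n Q s₁ s₂ χ.ψ * (pol M (cu K M u) χ.ψ *
          pol M (cu K M (-u)) (fun I => (starRingEnd ℂ) (χ.ψ I))) +
        Xn (nrComplexPlaces K) (cB K (qi K q)) s₁ s₂ *
          (A2n Q (1 - s₂) (1 - s₁) χ.ψ * (pol M (cu K M u) χ.ψ *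
            pol M (cu K M (-u)) (fun I => (starRingEnd ℂ) (χ.ψ I)))) := by
    intro χ hχ
    have hχ' : χ.f = qi K q := hχ
    have hf : χ.f ≠ ⊤ := by rw [hχ']; exact qi_ne_top K q hq
    have h7 := h1 K χ hf (Zx χ) (Pool.Agent.H91.CRZ.Zx_ent K χ hf) s₁ s₂
      (by linarith [neg_abs_le α.re]) (by linarith [le_abs_self α.re])
      (by linarith [neg_abs_le β.re]) (by linarith [le_abs_self β.re])
    have h8 : (starRingEnd ℂ) s₂ = 1 / 2 + (starRingEnd ℂ) β + u * I := by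
      apply Complex.ext
      · simp [hs₂]
      · simp [hs₂]
    rw [h8, hχ'] at h7
    rw [h7, ← Pool.Agent.H91.CRZ.conj_pol, Complex.mul_conj, Complex.normSq_eq_norm_sq]
    ring
  have hsum : (∑ᶠ χ ∈ Pr K (qi K q), Zx χ s₁ *
      (starRingEnd ℂ) (Zx χ (1 / 2 + (starRingEnd ℂ) β + u * I)) *
        ((‖pol M (cu K M u) χ.ψ‖ ^ 2 : ℝ) : ℂ)) =
      (∑ᶠ χ ∈ Pr K (qi K q), A2n Q s₁ s₂ χ.ψ * (pol M (cu K M u) χ.ψ *
          pol M (cu K M (-u)) (fun I => (starRingEnd ℂ) (χ.ψ I)))) +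
        Xn (nrComplexPlaces K) (cB K (qi K q)) s₁ s₂ *
          ∑ᶠ χ ∈ Pr K (qi K q), A2n Q (1 - s₂) (1 - s₁) χ.ψ *
          (pol M (cu K M u) χ.ψ *
            pol M (cu K M (-u)) (fun I => (starRingEnd ℂ) (χ.ψ I))) := by
    rw [finsum_mem_eq_finite_toFinset_sum _ hfin, finsum_mem_eq_finite_toFinset_sum _ hfin,
      finsum_mem_eq_finite_toFinset_sum _ hfin, Finset.mul_sum, ← Finset.sum_add_distrib]
    exact Finset.sum_congr rfl fun χ hχ => hterm χ (by simpa using hχ)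
  rw [hsum]
  set S₁ : ℂ := ∑ᶠ χ ∈ Pr K (qi K q), A2n Q s₁ s₂ χ.ψ * (pol M (cu K M u) χ.ψ *
          pol M (cu K M (-u)) (fun I => (starRingEnd ℂ) (χ.ψ I))) with hS₁
  set S₂ : ℂ := ∑ᶠ χ ∈ Pr K (qi K q), A2n Q (1 - s₂) (1 - s₁) χ.ψ *
          (pol M (cu K M u) χ.ψ *
            pol M (cu K M (-u)) (fun I => (starRingEnd ℂ) (χ.ψ I))) with hS₂
  set X : ℂ := Xn (nrComplexPlaces K) (cB K (qi K q)) s₁ s₂ with hXX
  set D₁ : ℂ := Dn (qi K q) Q M s₁ s₂ (cu K M u) (cu K M (-u)) ⊤ ⊤ with hD₁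
  set D₂ : ℂ := Dn (qi K q) Q M (1 - s₂) (1 - s₁) (cu K M u) (cu K M (-u)) ⊤ ⊤ with hD₂
  set m : ℂ := 1 / (α + β) * E (1 + (α + β)) * Sd K M α β -
    X * (1 / (α + β) * E (1 - (α + β)) * Sd K M (-β) (-α)) with hm
  set b : ℂ := Bm α β (Lg K q) (Real.log M) with hb
  set N : ℝ := (nc (qi K q) (qi K q) : ℝ) with hN
  have hN0 : 0 ≤ N := Nat.cast_nonneg _
  have hNc : ((nc (qi K q) (qi K q) : ℕ) : ℂ) = (N : ℂ) := by
    rw [hN]
    push_cast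
    rfl
  rw [hNc] at k1 k2 ⊢
  have e0 : (S₁ + X * S₂) - N * b = (S₁ - N * D₁) + X * (S₂ - N * D₂) +
      N * ((D₁ + X * D₂) - m) + N * (m - b) := by ring
  rw [e0]
  have t1 : ‖S₁ - N * D₁‖ ≤ η₁ * (1 + |u|) ^ B₁ * N := k1
  have t2 : ‖X * (S₂ - N * D₂)‖ ≤ (CX * (1 + |u|) ^ BX) * (η₁ * (1 + |u|) ^ B₁ * N) := by
    rw [norm_mul]
    exact mul_le_mul hX' k2 (norm_nonneg _) (by positivity)
  have t3 : ‖(N : ℂ) * ((D₁ + X * D₂) - m)‖ ≤ N * (η / 3 * (1 + |u|) ^ B₂) := by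
    rw [norm_mul, Complex.norm_real, Real.norm_eq_abs, abs_of_nonneg hN0]
    exact mul_le_mul_of_nonneg_left hDI' hN0
  have t4 : ‖(N : ℂ) * (m - b)‖ ≤ N * (η / 3 * (1 + |u|) ^ B₃) := by
    rw [norm_mul, Complex.norm_real, Real.norm_eq_abs, abs_of_nonneg hN0]
    exact mul_le_mul_of_nonneg_left hBM' hN0
  have w1 : (1 + |u|) ^ B₁ ≤ (1 + |u|) ^ BX * (1 + |u|) ^ B₁ := by
    have := Real.one_le_rpow hu1 hBX
    have h7 : 0 ≤ (1 + |u|) ^ B₁ := by positivity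
    nlinarith
  have w2 : (1 + |u|) ^ BX * (1 + |u|) ^ B₁ ≤ (1 + |u|) ^ (B₁ + BX + B₂ + B₃) := by
    rw [← Real.rpow_add (by linarith)]
    exact Real.rpow_le_rpow_of_exponent_le hu1 (by linarith)
  have w3 : (1 + |u|) ^ B₂ ≤ (1 + |u|) ^ (B₁ + BX + B₂ + B₃) :=
    Real.rpow_le_rpow_of_exponent_le hu1 (by linarith)
  have w4 : (1 + |u|) ^ B₃ ≤ (1 + |u|) ^ (B₁ + BX + B₂ + B₃) :=
    Real.rpow_le_rpow_of_exponent_le hu1 (by linarith)
  set W : ℝ := (1 + |u|) ^ (B₁ + BX + B₂ + B₃) with hW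
  have v1 : ‖S₁ - N * D₁‖ + ‖X * (S₂ - N * D₂)‖ ≤ η / 3 * W * N := by
    calc ‖S₁ - N * D₁‖ + ‖X * (S₂ - N * D₂)‖
        ≤ η₁ * (1 + |u|) ^ B₁ * N + (CX * (1 + |u|) ^ BX) *
          (η₁ * (1 + |u|) ^ B₁ * N) := add_le_add t1 t2
      _ ≤ η₁ * ((1 + |u|) ^ BX * (1 + |u|) ^ B₁) * N + (CX * (1 + |u|) ^ BX) *
          (η₁ * (1 + |u|) ^ B₁ * N) := by gcongr
      _ = η₁ * (1 + CX) * ((1 + |u|) ^ BX * (1 + |u|) ^ B₁) * N := by ring
      _ = η / 3 * ((1 + |u|) ^ BX * (1 + |u|) ^ B₁) * N := by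
          rw [hη₁]
          congr 2
          have : 1 + CX ≠ 0 := by positivity
          field_simp
      _ ≤ η / 3 * W * N := by gcongr
  have v3 : N * (η / 3 * (1 + |u|) ^ B₂) ≤ N * (η / 3 * W) := by gcongr
  have v4 : N * (η / 3 * (1 + |u|) ^ B₃) ≤ N * (η / 3 * W) := by gcongr
  have n1 := norm_add_le ((S₁ - N * D₁) + X * (S₂ - N * D₂) + N * ((D₁ + X * D₂) - m))
    (N * (m - b))
  have n2 := norm_add_le ((S₁ - N * D₁) + X * (S₂ - N * D₂)) (N * ((D₁ + X * D₂) - m))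
  have n3 := norm_add_le (S₁ - N * D₁) (X * (S₂ - N * D₂))
  have e9 : η * W * N = η / 3 * W * N + N * (η / 3 * W) + N * (η / 3 * W) := by ring
  rw [e9]
  linarith

end Pool.Agent.H40.CRG
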